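import Mathlib
import Pool.Agent.H852.ND.IndFinal

set_option autoImplicit false

/-!
# Maximal conditions away from the expected threshold, for all multiplicities small compared to `d`

Let `r ≥ 2`. For every `ε > 0` there is a `σ > 0` such that, for every number `k` of general points
of `ℙ^r`, every `d > 0` and all multiplicities with `m i + (2 r - 1) ≤ σ d`:

* if `∑ (m i) ^ r > (1 + ε) d ^ r`, then there is no form of degree `d` with these multiplicities;
* if `∑ (m i + (2 r - 1)) ^ r ≤ (1 - ε) d ^ r`, then the points impose independent conditions.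

So the fat point scheme imposes maximal conditions in degree `d` in both cases. An explicit version
of the first part: there is no form if `m i ≤ σ d` and `∑ (m i) ^ r > (c d) ^ r` with
`c = (1 + 1 / B + B σ) ^ (r - 1) + 6 B ^ (r + 1) σ ^ (r - 1)` for some integer `B ≥ 2`.

The points are `(1 : P i 0 : … : P i (r - 1))`.
-/

namespace Pool.Agent.Results.MP_1dafdd_ag.AsymptoticRange

open MvPolynomial

/-- For `k` general points `(1 : P i 0 : … : P i (r - 1))` of `ℙ^r` there is no nonzero form of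
degree `d` vanishing to order at least `m i` at the `i`-th point, and the fat point scheme imposes
maximal conditions in degree `d`. -/
def EmptyAndMaximal (r k : ℕ) (m : Fin k → ℕ) (d : ℕ) : Prop :=
  ∃ F : MvPolynomial (Fin k × Fin r) ℂ, F ≠ 0 ∧
    ∀ P : Fin k → Fin r → ℂ,
      MvPolynomial.eval (fun ij : Fin k × Fin r => P ij.1 ij.2) F ≠ 0 →
      (∀ G : MvPolynomial (Fin (r + 1)) ℂ, G.IsHomogeneous d →
        (∀ i, G ∈ (Ideal.span (Set.range fun j : Fin r =>
          (X j.succ - C (P i j) * X 0 : MvPolynomial (Fin (r + 1)) ℂ))) ^ (m i)) → G = 0) ∧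
      (Module.finrank ℂ
        ↥(MvPolynomial.homogeneousSubmodule (Fin (r + 1)) ℂ d ⊓
          Submodule.restrictScalars ℂ
            (⨅ i : Fin k, (Ideal.span (Set.range fun j : Fin r =>
              (X j.succ - C (P i j) * X 0 : MvPolynomial (Fin (r + 1)) ℂ))) ^ (m i))) : ℤ) =
        max 0 ((Nat.choose (d + r) r : ℤ) - ∑ i, (Nat.choose (m i + r - 1) r : ℤ))

/-- For `k` general points `(1 : P i 0 : … : P i (r - 1))` of `ℙ^r` the vanishing to order at least
`m i` at the `i`-th point, for all `i`, imposes independent conditions on the forms of degree `d`,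
and the fat point scheme imposes maximal conditions in degree `d`. -/
def IndependentAndMaximal (r k : ℕ) (m : Fin k → ℕ) (d : ℕ) : Prop :=
  ∃ F : MvPolynomial (Fin k × Fin r) ℂ, F ≠ 0 ∧
    ∀ P : Fin k → Fin r → ℂ,
      MvPolynomial.eval (fun ij : Fin k × Fin r => P ij.1 ij.2) F ≠ 0 →
      ∑ i, (m i + r - 1).choose r +
        Module.finrank ℂ
          ↥(MvPolynomial.homogeneousSubmodule (Fin (r + 1)) ℂ d ⊓
            Submodule.restrictScalars ℂ
              (⨅ i : Fin k, (Ideal.span (Set.range fun j : Fin r =>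
                (X j.succ - C (P i j) * X 0 : MvPolynomial (Fin (r + 1)) ℂ))) ^ (m i))) =
        (d + r).choose r ∧
      (Module.finrank ℂ
        ↥(MvPolynomial.homogeneousSubmodule (Fin (r + 1)) ℂ d ⊓
          Submodule.restrictScalars ℂ
            (⨅ i : Fin k, (Ideal.span (Set.range fun j : Fin r =>
              (X j.succ - C (P i j) * X 0 : MvPolynomial (Fin (r + 1)) ℂ))) ^ (m i))) : ℤ) =
        max 0 ((Nat.choose (d + r) r : ℤ) - ∑ i, (Nat.choose (m i + r - 1) r : ℤ))

theorem result (r : ℕ) (hr : 2 ≤ r) :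
    (∀ ε : ℝ, 0 < ε → ∃ σ : ℝ, 0 < σ ∧ ∀ (k : ℕ) (m : Fin k → ℕ) (d : ℕ), 0 < d →
      (∀ i, (m i : ℝ) + (2 * r - 1) ≤ σ * d) →
      ((1 + ε) * (d : ℝ) ^ r < ∑ i, (m i : ℝ) ^ r → EmptyAndMaximal r k m d) ∧
      (∑ i, ((m i : ℝ) + (2 * r - 1)) ^ r ≤ (1 - ε) * (d : ℝ) ^ r →
        IndependentAndMaximal r k m d)) ∧
    ∀ (B : ℕ) (σ : ℝ), 2 ≤ B → 0 ≤ σ → ∀ (k : ℕ) (m : Fin k → ℕ) (d : ℕ),
      (∀ i, (m i : ℝ) ≤ σ * d) →
      (((1 + 1 / (B : ℝ) + B * σ) ^ (r - 1) + 6 * (B : ℝ) ^ (r + 1) * σ ^ (r - 1)) * d) ^ r <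
        ∑ i, (m i : ℝ) ^ r →
      EmptyAndMaximal r k m d := by
  obtain ⟨E, rfl⟩ : ∃ E, r = E + 1 := ⟨r - 1, by omega⟩
  have hE : 1 ≤ E := by omega
  have key : ∀ (B : ℕ) (σ : ℝ), 2 ≤ B → 0 ≤ σ → ∀ (k : ℕ) (m : Fin k → ℕ) (d : ℕ),
      (∀ i, (m i : ℝ) ≤ σ * d) →
      (H852.ND.cst E B σ * d) ^ (E + 1) < ∑ i, (m i : ℝ) ^ (E + 1) →
      EmptyAndMaximal (E + 1) k m d := by
    intro B σ hB hσ k m d hm h
    obtain ⟨x, hx⟩ := H852.ND.round_empty (K := ℂ) hB hE hσ hm h
    obtain ⟨F, hF, hF'⟩ := H932R5.open_of_full (K := ℂ) (E := E) (w := m) (d := d) ⟨x, hx⟩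
    refine ⟨F, hF, fun P hP => ?_⟩
    have hP' := hF' P hP
    have hbot := H932R5.EmptyAt.bot hP'
    constructor
    · intro G hG hGm
      have h1 : G ∈ H932R5.Vd (E := E) d m P := by
        unfold H932R5.Vd
        rw [Submodule.mem_inf, mem_homogeneousSubmodule, Submodule.restrictScalars_mem,
          Ideal.mem_iInf]
        exact ⟨hG, hGm⟩
      rw [hbot, Submodule.mem_bot] at h1
      exact h1
    · have h1 : Module.finrank ℂ ↥(H932R5.Vd (E := E) d m P) = 0 := hP'.finrank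
      have h2 := H932R5.finrank_ge (E := E) d m P
      rw [h1, add_zero] at h2
      have h3 : (Module.finrank ℂ
          ↥(MvPolynomial.homogeneousSubmodule (Fin (E + 1 + 1)) ℂ d ⊓
            Submodule.restrictScalars ℂ
              (⨅ i : Fin k, (Ideal.span (Set.range fun j : Fin (E + 1) =>
                (X j.succ - C (P i j) * X 0 :
                  MvPolynomial (Fin (E + 1 + 1)) ℂ))) ^ (m i))) : ℤ) = 0 := by
        exact_mod_cast h1
      rw [h3]
      symm
      rw [max_eq_left]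
      have h4 : ((d + E + 1).choose (E + 1) : ℤ) ≤ ∑ i, ((m i + E).choose (E + 1) : ℤ) := by
        exact_mod_cast h2
      have h5 : ∀ i, m i + (E + 1) - 1 = m i + E := fun i => by omega
      simp only [h5]
      have h6 : d + (E + 1) = d + E + 1 := by ring
      rw [h6]
      linarith
  have key2 : ∀ (B : ℕ) (σ : ℝ), 2 ≤ B → 0 < σ → σ * B ≤ 1 → ∀ (k : ℕ) (m : Fin k → ℕ) (d : ℕ),
      0 < d → (∀ i, (m i : ℝ) + (2 * E + 1) ≤ σ * d) →
      (1 + 1 / (B : ℝ)) ^ (E + 1) * ∑ i, ((m i : ℝ) + (2 * E + 1)) ^ (E + 1) +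
        (2 * (B : ℝ) + 1) * ((B : ℝ) ^ (E + 1) + 2) * (σ * d) ^ (E + 1) ≤
        ((1 - σ * B) * d) ^ (E + 1) →
      IndependentAndMaximal (E + 1) k m d := by
    intro B σ hB hσ hσB k m d hd hm h
    obtain ⟨x, hx⟩ := H852.ND.round_surj (K := ℂ) hB hd hσ hσB hm h
    obtain ⟨F, hF, hF'⟩ := H852.ND.surj_open hx
    refine ⟨F, hF, fun P hP => ?_⟩
    have h1 := (hF' P hP).finrank
    have h5 : ∀ i, m i + (E + 1) - 1 = m i + E := fun i => by omega
    have h6 : d + (E + 1) = d + E + 1 := by ring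
    have h7 : ∑ i, (m i + (E + 1) - 1).choose (E + 1) +
        Module.finrank ℂ
          ↥(MvPolynomial.homogeneousSubmodule (Fin (E + 1 + 1)) ℂ d ⊓
            Submodule.restrictScalars ℂ
              (⨅ i : Fin k, (Ideal.span (Set.range fun j : Fin (E + 1) =>
                (X j.succ - C (P i j) * X 0 :
                  MvPolynomial (Fin (E + 1 + 1)) ℂ))) ^ (m i))) =
        (d + (E + 1)).choose (E + 1) := by
      simp only [h5]
      rw [h6]
      exact h1
    refine ⟨h7, ?_⟩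
    rw [max_eq_right]
    · rw [← h7]
      push_cast
      ring
    · rw [← h7]
      push_cast
      have h8 : (0 : ℤ) ≤ (Module.finrank ℂ
          ↥(MvPolynomial.homogeneousSubmodule (Fin (E + 1 + 1)) ℂ d ⊓
            Submodule.restrictScalars ℂ
              (⨅ i : Fin k, (Ideal.span (Set.range fun j : Fin (E + 1) =>
                (X j.succ - C (P i j) * X 0 :
                  MvPolynomial (Fin (E + 1 + 1)) ℂ))) ^ (m i))) : ℤ) := Nat.cast_nonneg _
      linarith
  have e2 : (2 * ((E + 1 : ℕ) : ℝ) - 1) = 2 * (E : ℝ) + 1 := by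
    push_cast
    ring
  constructor
  · intro ε hε
    obtain ⟨B, hB, σ, hσ, hc⟩ := H852.ND.exists_cst E hE hε
    obtain ⟨B', hB', σ', hσ', hσB, hc'⟩ := H852.ND.exists_surj_cst E hε
    refine ⟨min σ σ', lt_min hσ hσ', fun k m d hd hm => ⟨fun h => ?_, fun h => ?_⟩⟩
    · refine key B σ hB hσ.le k m d (fun i => ?_) (lt_of_le_of_lt ?_ h)
      · have h1 := hm i
        rw [e2] at h1
        have h2 : min σ σ' * (d : ℝ) ≤ σ * d :=
          mul_le_mul_of_nonneg_right (min_le_left _ _) (Nat.cast_nonneg d)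
        have h3 : (0 : ℝ) ≤ 2 * E + 1 := by positivity
        linarith
      · rw [mul_pow]
        exact mul_le_mul_of_nonneg_right hc (by positivity)
    · simp only [e2] at h hm
      refine key2 B' σ' hB' hσ' hσB k m d hd (fun i => ?_) ?_
      · have h2 : min σ σ' * (d : ℝ) ≤ σ' * d :=
          mul_le_mul_of_nonneg_right (min_le_right _ _) (Nat.cast_nonneg d)
        linarith [hm i]
      · rw [mul_pow, mul_pow]
        have h1 : (0 : ℝ) ≤ (1 + 1 / (B' : ℝ)) ^ (E + 1) := by positivity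
        have h2 : (0 : ℝ) ≤ (d : ℝ) ^ (E + 1) := by positivity
        have h3 := mul_le_mul_of_nonneg_left h h1
        have h4 := mul_le_mul_of_nonneg_right hc' h2
        have h5 : ((1 + 1 / (B' : ℝ)) ^ (E + 1) * (1 - ε) +
            (2 * (B' : ℝ) + 1) * ((B' : ℝ) ^ (E + 1) + 2) * σ' ^ (E + 1)) * (d : ℝ) ^ (E + 1) =
            (1 + 1 / (B' : ℝ)) ^ (E + 1) * ((1 - ε) * (d : ℝ) ^ (E + 1)) +
            (2 * (B' : ℝ) + 1) * ((B' : ℝ) ^ (E + 1) + 2) * (σ' ^ (E + 1) * (d : ℝ) ^ (E + 1)) := by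
          ring
        rw [h5] at h4
        linarith
  · intro B σ hB hσ k m d hm h
    exact key B σ hB hσ k m d hm h

end Pool.Agent.Results.MP_1dafdd_ag.AsymptoticRange
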