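import Mathlib
import Pool.Agent.H350R3.MG.PLem
import Pool.Agent.H350R3.MG.Fat

/-!
# Fat points in fixed degree and projective spaces of high dimension

Fix the degree `d`. We consider `k` general points of `ℙⁿ` with multiplicities `m 1, …, m k` such
that there are at most `c * n ^ (d + 1 - μ - ε)` points of multiplicity `μ`, for `1 ≤ μ ≤ d`. Then
the only reason for which the fat point scheme can fail to impose maximal conditions in degree `d`
is the existence of two points with `m i + m j ≥ d + 2` (the line through them is then contained in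
the base locus).
-/

set_option autoImplicit false

namespace Pool.Agent.Results.MP_1dafdd_ag.LowDegreeHighDimension

open MvPolynomial
open scoped LinearAlgebra.Projectivization
open Pool.Agent.H350R3.MG

/-- `V_d(Γ)`: the forms of degree `d` vanishing to order at least `m i` at the `i`-th point. -/
noncomputable def forms {n k : ℕ} (d : ℕ) (m : Fin k → ℕ) (P : Fin k → ℙ ℂ (Fin (n + 1) → ℂ)) :
    Submodule ℂ (MvPolynomial (Fin (n + 1)) ℂ) :=
  homogeneousSubmodule (Fin (n + 1)) ℂ d ⊓
    Submodule.restrictScalars ℂ (⨅ i, primeIdeal (P i) ^ m i : Ideal (MvPolynomial (Fin (n + 1)) ℂ))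

/-- `Γ` imposes maximal conditions in degree `d`. -/
def ImposesMaximalConditions {n k : ℕ} (d : ℕ) (m : Fin k → ℕ)
    (P : Fin k → ℙ ℂ (Fin (n + 1) → ℂ)) : Prop :=
  (Module.finrank ℂ (forms d m P) : ℤ) =
    max 0 (((d + n).choose n : ℤ) - ∑ i, ((m i + n - 1).choose n : ℤ))

lemma forms_mk {n k d : ℕ} {m : Fin k → ℕ} (hm : ∀ i, m i ≤ d) (v : Fin k → Fin (n + 1) → ℂ)
    (hv : ∀ i, v i ≠ 0) :
    forms d m (fun i => Projectivization.mk ℂ (v i) (hv i)) =
      H350MG.K (H350MG.ptList (fun i => d + 1 - m i)
        (fun x : Fin k × Fin (n + 1) => v x.1 x.2)) d := by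
  unfold forms
  ext F
  rw [Submodule.mem_inf, Submodule.restrictScalars_mem, Submodule.mem_iInf, H350MG.mem_K]
  constructor
  · rintro ⟨h1, h2⟩
    refine ⟨h1, ?_⟩
    intro c hc
    obtain ⟨i, rfl⟩ := H350MG.exists_of_mem_ptList hc
    have h3 := h2 i
    rw [primeIdeal_mk] at h3
    exact (H350MG.mem_pow_iff (hv i) (by have := hm i; omega) h1).1 h3
  · rintro ⟨h1, h2⟩
    refine ⟨h1, fun i => ?_⟩
    rw [primeIdeal_mk, H350MG.mem_pow_iff (hv i) (by have := hm i; omega) h1]
    exact h2 (fun j => v i j, d + 1 - m i)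
      (H350MG.mem_ptList (e := fun i => d + 1 - m i)
        (fun x : Fin k × Fin (n + 1) => v x.1 x.2) i)

lemma gj_fin (n j : ℕ) : H350MG.gj (Fin (n + 1)) j = ((n + j).choose n : ℕ) := by
  unfold H350MG.gj
  rw [Fintype.card_fin]
  have h1 : n + 1 + j - 1 = n + j := by omega
  rw [h1, ← Nat.choose_symm_add]

/-- Fix the degree `d` and `ε > 0`. There is a `c > 0` such that for all `n ≥ 1` and all
multiplicities `m 1, …, m k ≥ 1`, of which, for each `1 ≤ μ ≤ d`, at most `c * n ^ (d + 1 - μ - ε)`
are equal to `μ`: for `k` general points of `ℙⁿ` the fat point scheme with these multiplicities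
fails to impose maximal conditions in degree `d` if and only if all the multiplicities are at most
`d` and two of them, at different points, have sum at least `d + 2`. -/
theorem result (d : ℕ) (ε : ℝ) (hε : 0 < ε) :
    ∃ c : ℝ, 0 < c ∧ ∀ (n k : ℕ) (m : Fin k → ℕ), 1 ≤ n → (∀ i, 1 ≤ m i) →
      (∀ μ : ℕ, 1 ≤ μ → μ ≤ d →
        ((Finset.univ.filter fun i => m i = μ).card : ℝ) ≤
          c * (n : ℝ) ^ ((d : ℝ) + 1 - (μ : ℝ) - ε)) →
      (((∀ i, m i ≤ d) ∧ ∃ i j, i ≠ j ∧ d + 2 ≤ m i + m j) →
        Generally (fun P : Fin k → ℙ ℂ (Fin (n + 1) → ℂ) => ¬ ImposesMaximalConditions d m P)) ∧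
      (¬ ((∀ i, m i ≤ d) ∧ ∃ i j, i ≠ j ∧ d + 2 ≤ m i + m j) →
        Generally (fun P : Fin k → ℙ ℂ (Fin (n + 1) → ℂ) => ImposesMaximalConditions d m P)) := by
  classical
  obtain ⟨c, hc, H⟩ := H350MG.main d hε
  refine ⟨c, hc, ?_⟩
  intro n k m hn hm1 hcount
  by_cases hmd : ∀ i, m i ≤ d
  · have he : ∀ i, 0 < d + 1 - m i := fun i => by have := hmd i; omega
    obtain ⟨hs, B, hB⟩ := H (Fin (n + 1)) n k (fun i => d + 1 - m i) hn
      (by rw [Fintype.card_fin]; omega) he (by
        intro e' h1 h2
        have h3 := hcount (d + 1 - e') (by omega) (by omega)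
        have h4 : (Finset.univ.filter fun i => d + 1 - m i = e')
            = (Finset.univ.filter fun i => m i = d + 1 - e') := by
          ext i
          simp only [Finset.mem_filter, Finset.mem_univ, true_and]
          have := hmd i
          omega
        rw [h4]
        refine h3.trans (le_of_eq ?_)
        congr 2
        rw [Nat.cast_sub (by omega)]
        push_cast
        ring)
    obtain ⟨Φ, hΦ0, hΦ⟩ := H350MG.generic_compare ℂ he hs hB
    have hterm : (H350MG.gj (Fin (n + 1)) d -
        ∑ i, (if d + 1 - m i ≤ d then H350MG.gj (Fin (n + 1)) (d - (d + 1 - m i)) else 0))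
        = ((d + n).choose n : ℤ) - ∑ i, ((m i + n - 1).choose n : ℤ) := by
      rw [gj_fin, Nat.add_comm n d]
      congr 1
      refine Finset.sum_congr rfl fun i _ => ?_
      have h1 := hm1 i
      have h2 := hmd i
      rw [if_pos (by omega), gj_fin]
      have h3 : n + (d - (d + 1 - m i)) = m i + n - 1 := by omega
      rw [h3]
    have hpos : 0 < ((d + n).choose n : ℤ) - ∑ i, ((m i + n - 1).choose n : ℤ) := by
      rw [← hterm]
      have := hs d le_rfl
      linarith
    constructor
    · rintro ⟨-, i, j, hij, hle⟩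
      refine generally_of_poly Φ hΦ0 ?_
      intro v hv hv2 himp
      have h1 := (hΦ _ hv2).2 ⟨i, j, hij, by have := hmd i; have := hmd j; omega⟩
      unfold ImposesMaximalConditions at himp
      rw [forms_mk hmd v hv, max_eq_right hpos.le, ← hterm] at himp
      rw [himp] at h1
      exact lt_irrefl _ h1
    · intro hno
      refine generally_of_poly Φ hΦ0 ?_
      intro v hv hv2
      have h1 := (hΦ _ hv2).1 (by
        intro i j hij
        by_contra hcon
        refine hno ⟨hmd, i, j, hij, ?_⟩
        have := hmd i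
        have := hmd j
        omega)
      unfold ImposesMaximalConditions
      rw [forms_mk hmd v hv, max_eq_right hpos.le, ← hterm]
      exact h1
  · refine ⟨fun h => absurd h.1 hmd, fun _ => ?_⟩
    push Not at hmd
    obtain ⟨i, hi⟩ := hmd
    refine generally_of_poly 1 one_ne_zero ?_
    intro v hv _
    unfold ImposesMaximalConditions
    have h1 : forms d m (fun i => Projectivization.mk ℂ (v i) (hv i)) = ⊥ := by
      rw [eq_bot_iff]
      intro F hF
      unfold forms at hF
      rw [Submodule.mem_inf, Submodule.restrictScalars_mem, Submodule.mem_iInf] at hF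
      have h2 := hF.2 i
      rw [primeIdeal_mk] at h2
      rw [Submodule.mem_bot]
      exact H350MG.eq_zero_of_mem_pow hi h2 hF.1
    rw [h1, finrank_bot, Nat.cast_zero, eq_comm, max_eq_left_iff, sub_nonpos]
    have h3 : ((d + n).choose n : ℤ) ≤ ((m i + n - 1).choose n : ℤ) := by
      exact_mod_cast Nat.choose_le_choose n (by omega)
    refine h3.trans ?_
    exact Finset.single_le_sum (f := fun i => ((m i + n - 1).choose n : ℤ))
      (fun j _ => by positivity) (Finset.mem_univ i)

end Pool.Agent.Results.MP_1dafdd_ag.LowDegreeHighDimension
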